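import Pool.Agent.R972.OP.Stm2

/-! OP-WCB (helper515) -/

set_option autoImplicit false

namespace Pool.Agent.R515.OP

open MeasureTheory Set Filter Topology Pool.Agent.R972.OP

theorem wc (N : ℕ) (hN : 0 < N) :
    WC N (fun k => -Real.cos (Real.pi * ((k : ℝ) + 1 / 2) / N)) (fun _ => cb N) 0 := by
  have hN' : (0 : ℝ) < N := by exact_mod_cast hN
  have hN1 : (1 : ℝ) ≤ N := by exact_mod_cast hN
  have hπ := Real.pi_pos
  set θ : ℝ := Real.pi / N with hθ
  have hθ0 : 0 < θ := by positivity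
  have hNθ : N * θ = Real.pi := by rw [hθ]; field_simp
  have hs : 0 < Real.sin (θ / 2) := by
    refine Real.sin_pos_of_pos_of_lt_pi (by positivity) ?_
    nlinarith
  have hcb : cb N = 1 / (4 * Real.sin (θ / 2) ^ 2) := by
    unfold cb
    congr 4
    rw [hθ]; field_simp
  have hW : ∀ k : ℝ, Real.cos (Real.pi * (k + 1 / 2) / N) = Real.cos (k * θ + θ / 2) := by
    intro k
    congr 1
    rw [hθ]; field_simp
  -- the increments
  have hd : ∀ k : ℝ, -Real.cos (Real.pi * (k + 1 + 1 / 2) / N) -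
      -Real.cos (Real.pi * (k + 1 / 2) / N) = 2 * Real.sin ((k + 1) * θ) * Real.sin (θ / 2) := by
    intro k
    rw [hW, hW]
    have e1 : (k + 1) * θ + θ / 2 = (k + 1) * θ + (θ / 2) := rfl
    have e2 : k * θ + θ / 2 = (k + 1) * θ - (θ / 2) := by ring
    rw [e2, Real.cos_add, Real.cos_sub]
    ring
  have hd0 : 2 * Real.sin ((0 : ℝ) * θ) * Real.sin (θ / 2) = 0 := by simp
  have hdN : 2 * Real.sin ((N : ℝ) * θ) * Real.sin (θ / 2) = 0 := by rw [hNθ]; simp
  refine ⟨?_, ?_, ?_⟩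
  · intro k hk
    have h1 := hd k
    have hk' : (k : ℝ) + 1 < N := by exact_mod_cast hk
    have h2 : 0 < Real.sin (((k : ℝ) + 1) * θ) := by
      refine Real.sin_pos_of_pos_of_lt_pi (by positivity) ?_
      rw [← hNθ]
      exact mul_lt_mul_of_pos_right hk' hθ0
    have h3 : 0 < 2 * Real.sin (((k : ℝ) + 1) * θ) * Real.sin (θ / 2) := by positivity
    push_cast
    linarith
  · intro k _
    unfold cb
    positivity
  · intro j hj
    have e1 : (if j + 1 < N then cb N * (-Real.cos (Real.pi * (((j + 1 : ℕ) : ℝ) + 1 / 2) / N) -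
        -Real.cos (Real.pi * ((j : ℝ) + 1 / 2) / N)) else 0) =
        cb N * (2 * Real.sin (((j : ℝ) + 1) * θ) * Real.sin (θ / 2)) := by
      split_ifs with h
      · push_cast
        rw [hd]
      · have : (j : ℝ) + 1 = N := by
          have : j + 1 = N := by omega
          exact_mod_cast this
        rw [this, hdN, mul_zero]
    have e2 : (if 0 < j then cb N * (-Real.cos (Real.pi * ((j : ℝ) + 1 / 2) / N) -
        -Real.cos (Real.pi * (((j - 1 : ℕ) : ℝ) + 1 / 2) / N)) else 0) =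
        cb N * (2 * Real.sin ((j : ℝ) * θ) * Real.sin (θ / 2)) := by
      split_ifs with h
      · obtain ⟨i, rfl⟩ : ∃ i, j = i + 1 := ⟨j - 1, by omega⟩
        rw [Nat.add_sub_cancel]
        push_cast
        rw [hd]
      · have : j = 0 := by omega
        subst this
        rw [Nat.cast_zero, hd0, mul_zero]
    rw [e1, e2, hcb]
    have e3 : Real.sin (((j : ℝ) + 1) * θ) - Real.sin ((j : ℝ) * θ) =
        2 * Real.sin (θ / 2) * Real.cos ((j : ℝ) * θ + θ / 2) := by
      have a1 : ((j : ℝ) + 1) * θ = ((j : ℝ) * θ + θ / 2) + θ / 2 := by ring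
      have a2 : (j : ℝ) * θ = ((j : ℝ) * θ + θ / 2) - θ / 2 := by ring
      rw [a1]
      conv_lhs => rw [a2]
      have a3 : ((j : ℝ) * θ + θ / 2 - θ / 2 + θ / 2) + θ / 2 = ((j : ℝ) * θ + θ / 2) + θ / 2 := by
        ring
      rw [a3, Real.sin_add, Real.sin_sub]
      ring
    have e4 : 1 / (4 * Real.sin (θ / 2) ^ 2) *
        (2 * Real.sin (((j : ℝ) + 1) * θ) * Real.sin (θ / 2)) -
        1 / (4 * Real.sin (θ / 2) ^ 2) * (2 * Real.sin ((j : ℝ) * θ) * Real.sin (θ / 2)) =
        1 / (4 * Real.sin (θ / 2) ^ 2) * (2 * Real.sin (θ / 2) *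
          (Real.sin (((j : ℝ) + 1) * θ) - Real.sin ((j : ℝ) * θ))) := by ring
    rw [e4, e3, hW]
    field_simp
    ring

theorem lim : Tendsto (fun N : ℕ => cb N / (N : ℝ) ^ 2) atTop (𝓝 (1 / Real.pi ^ 2)) := by
  have hπ := Real.pi_pos
  have h1 : Tendsto (fun N : ℕ => Real.pi / (2 * (N : ℝ))) atTop (𝓝 0) := by
    have : Tendsto (fun N : ℕ => 2 * (N : ℝ)) atTop atTop :=
      Tendsto.const_mul_atTop (by norm_num) tendsto_natCast_atTop_atTop
    exact tendsto_const_nhds.div_atTop this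
  have h2 : Tendsto (fun N : ℕ => Real.sinc (Real.pi / (2 * (N : ℝ)))) atTop (𝓝 1) := by
    have := (Real.continuous_sinc.tendsto 0).comp h1
    rwa [Real.sinc_zero] at this
  have h3 : Tendsto (fun N : ℕ => 1 / (4 * (Real.pi / 2 * Real.sinc (Real.pi / (2 * (N : ℝ)))) ^ 2))
      atTop (𝓝 (1 / (4 * (Real.pi / 2 * 1) ^ 2))) := by
    refine Tendsto.div tendsto_const_nhds (((h2.const_mul _).pow 2).const_mul _) ?_
    positivity
  have e1 : 1 / (4 * (Real.pi / 2 * 1) ^ 2) = 1 / Real.pi ^ 2 := by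
    field_simp; norm_num
  rw [e1] at h3
  refine h3.congr' ?_
  filter_upwards [eventually_gt_atTop 0] with N hN
  have hN' : (0 : ℝ) < N := by exact_mod_cast hN
  rw [Real.sinc_of_ne_zero (by positivity)]
  unfold cb
  rw [div_div]
  congr 1
  field_simp

theorem wcb : S_WCB := ⟨wc, lim⟩

end Pool.Agent.R515.OP
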